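import Pool.Agent.Lib.MP_3cd67d_lc.Correct
import Pool.Agent.Lib.MP_3cd67d_lc.Poly
import Pool.Agent.Lib.MP_3cd67d_lc.helper27.Planar
import Pool.Agent.Lib.CookLevin.Hard

/-!
# Edge-disjoint partially disjoint paths in planar digraphs

For every fixed `k ≥ 11` the problem is NP-hard.
-/

namespace Pool.Agent.Results.MP_3cd67d_lc.NPHard

open Pool.Agent.PolyTime Pool.Agent.PathSys Pool.Agent.CookLevin Pool.Agent.EPDP

/-- The reduction. -/
noncomputable def red (k : ℕ) (φ : CNF3) : Inst k :=
  instOf (layout φ) (Lay.dig_planar (layout φ)) k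

theorem PT_red (k : ℕ) : PT (red k) := by
  have h : PT (fun φ => (red k φ).data) := PT_data k
  exact h

/-- For every fixed `k ≥ 11`, the edge-disjoint partially disjoint paths problem with `k` pairs
of terminals in planar digraphs is NP-hard. -/
theorem result : ∀ k : ℕ, 11 ≤ k →
    Function.Injective (encode : Inst k → List Bool) ∧
    NPHard (fun I : Inst k => I.Solvable) := by
  intro k hk
  refine ⟨encode_injective, NPHard.of_sat3 (PT_red k) fun φ => ?_⟩
  exact (sat_iff_paths φ).trans (solvable_iff (Lay.dig_planar (layout φ)) hk).symm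

end Pool.Agent.Results.MP_3cd67d_lc.NPHard
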